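import Pool.Agent.H24.RCN.Targets

/-!
# MP_4d5ac9_nt, row CDA
-/

set_option autoImplicit false

open NumberField Pool.Agent.H24.RCN

namespace Pool.Agent.H24.RCN

noncomputable section

lemma conj_root {F : Type} [Field F] [NumberField F] [IsCMField F] {x : F} {n : ℕ}
    (hn : n ≠ 0) (hx : x ^ n = 1) : IsCMField.complexConj F x = x⁻¹ := by
  obtain ⟨φ⟩ : Nonempty (F →+* ℂ) := inferInstance
  apply φ.injective
  rw [IsCMField.complexEmbedding_complexConj, map_inv₀]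
  have h1 : ‖φ x‖ = 1 := by
    have h2 : (φ x) ^ n = 1 := by rw [← map_pow, hx, map_one]
    have h3 : ‖φ x‖ ^ n = 1 := by rw [← norm_pow, h2, norm_one]
    exact (pow_eq_one_iff_of_nonneg (norm_nonneg _) hn).mp h3
  exact (Complex.inv_eq_conj h1).symm

lemma cda_gen (h94 : T_R94) (hkum : T_KUM) (hunr : T_UNR) (hprd : T_PRD) (hpow : T_POW)
    (hnta : T_NTA) (hntb : T_NTB) (F : Type) [Field F] [NumberField F] {r e d p k κ : ℕ}
    (D : Dat r e d p k κ) [NeZero (d * κ)] [IsCyclotomicExtension {d * κ} ℚ F]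
    [IsCMField F] : κ ∣ classNumber (maximalRealSubfield F) := by
  have hd2 := D.hd.two_le
  have hκ2 := D.hκ.two_le
  have hx0 := (IsCyclotomicExtension.zeta_spec (d * κ) ℚ F).toInteger_isPrimitiveRoot
  set x0 : 𝓞 F := (IsCyclotomicExtension.zeta_spec (d * κ) ℚ F).toInteger with hx0def
  have hζ : IsPrimitiveRoot (x0 ^ κ) d := hx0.pow (by positivity) (by ring)
  have hz : IsPrimitiveRoot (x0 ^ d) κ := hx0.pow (by positivity) rfl
  set ζ : 𝓞 F := x0 ^ κ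
  set z : 𝓞 F := x0 ^ d
  set q : 𝓞 F := ((r ^ e : ℕ) : 𝓞 F) with hq
  have hprod := hprd (𝓞 F) d (r ^ e) ζ D.hd hζ
  have hsum : (∑ i ∈ Finset.range d, ((r ^ e : ℕ) : 𝓞 F) ^ i) = ((p ^ k : ℕ) : 𝓞 F) := by
    rw [← D.eq]; push_cast; rfl
  rw [hsum] at hprod
  have hfac : ∀ i : ℕ, 1 ≤ i → i < d → (1 - ζ ^ i * q) ∣ ((p ^ k : ℕ) : 𝓞 F) := by
    intro i h1 h2
    rw [← hprod]
    have := Finset.dvd_prod_of_mem (fun i => (1 - ζ ^ (i + 1) * q))
      (Finset.mem_range.mpr (show i - 1 < d - 1 by omega))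
    have h3 : i - 1 + 1 = i := by omega
    simpa only [h3] using this
  have hpk0 : ((p ^ k : ℕ) : 𝓞 F) ≠ 0 := by
    have := D.hp.pos
    exact_mod_cast (by positivity : p ^ k ≠ 0)
  set P : 𝓞 F := 1 - ζ * q with hP
  set Pb : 𝓞 F := 1 - ζ ^ (d - 1) * q with hPb
  have hP1 : P ∣ ((p ^ k : ℕ) : 𝓞 F) := by
    have := hfac 1 le_rfl (by omega)
    rwa [pow_one] at this
  have hPb1 : Pb ∣ ((p ^ k : ℕ) : 𝓞 F) := hfac (d - 1) (by omega) (by omega)
  have hP0 : P ≠ 0 := fun h => hpk0 (by rw [h] at hP1; exact zero_dvd_iff.mp hP1)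
  have hPb0 : Pb ≠ 0 := fun h => hpk0 (by rw [h] at hPb1; exact zero_dvd_iff.mp hPb1)
  have hPF : (P : F) ≠ 0 := by exact_mod_cast hP0
  have hPbF : (Pb : F) ≠ 0 := by exact_mod_cast hPb0
  have hζd : ζ ^ d = 1 := hζ.pow_eq_one
  have hζF : (ζ : F) ^ d = 1 := by exact_mod_cast congrArg (fun x : 𝓞 F => (x : F)) hζd
  have hζ0 : (ζ : F) ≠ 0 := by
    intro h
    rw [h, zero_pow (by omega)] at hζF
    exact zero_ne_one hζF
  have hζ1 : (ζ : F) ^ (d - 1) = (ζ : F)⁻¹ := by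
    apply eq_inv_of_mul_eq_one_left
    rw [← pow_succ, Nat.sub_add_cancel (by omega), hζF]
  have hcζ : IsCMField.complexConj F (ζ : F) = (ζ : F)⁻¹ := conj_root (by omega) hζF
  have hPc : (P : F) = 1 - (ζ : F) * ((r ^ e : ℕ) : F) := by
    simp [hP, hq]
  have hPbc : (Pb : F) = 1 - (ζ : F)⁻¹ * ((r ^ e : ℕ) : F) := by
    rw [← hζ1]
    simp [hPb, hq]
  have hc1 : IsCMField.complexConj F (P : F) = Pb := by
    rw [hPc, hPbc, map_sub, map_mul, map_one, hcζ, map_natCast]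
  have hc2 : IsCMField.complexConj F (Pb : F) = P := by
    rw [hPc, hPbc, map_sub, map_mul, map_one, map_inv₀, hcζ, map_natCast, inv_inv]
  set β : F := -((ζ : F) ^ (d - 1) * P) / Pb with hβ
  have hββ : β * IsCMField.complexConj F β = 1 := by
    rw [hβ, hζ1, map_div₀, map_neg, map_mul, map_inv₀, hcζ, hc1, hc2]
    field_simp
  have hroot : ∀ x : F, x ^ κ ≠ β := by
    intro x hx
    have h1 : x ^ κ * (1 - (ζ : F) ^ (d - 1) * ((r ^ e : ℕ) : F)) =
      - ((ζ : F) ^ (d - 1) * (1 - (ζ : F) * ((r ^ e : ℕ) : F))) := by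
      rw [← hPc, hζ1, ← hPbc, hx, hβ, hζ1, div_mul_cancel₀ _ hPbF]
    obtain ⟨A, hA⟩ := hnta F r e d p k κ ζ D hζ x h1
    exact hntb F r e d p k κ ζ D hζ A hA
  have hzF : IsPrimitiveRoot (z : F) κ := hz.map_of_injective (f := algebraMap (𝓞 F) F)
    (RingOfIntegers.coe_injective)
  obtain ⟨L, i1, i2, i3, σ, J, b, hExt, hb1, hb2⟩ := hkum F κ (z : F) β D.hκ hzF hββ hroot
  obtain ⟨A, hA⟩ := hpow (𝓞 F) r e d p k κ ζ D hζ 1 le_rfl (by omega)
  obtain ⟨A', hA'⟩ := hpow (𝓞 F) r e d p k κ ζ D hζ (d - 1) (by omega) (by omega)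
  rw [pow_one] at hA
  obtain ⟨w0, hw0⟩ := D.hκq
  have hq1 : 1 ≤ r ^ e := Nat.one_le_pow _ _ D.hr.pos
  have hqF : ((r ^ e : ℕ) : F) = 1 + (κ : F) ^ 2 * (w0 : F) := by
    have h1 : r ^ e = 1 + κ ^ 2 * w0 := by omega
    rw [h1]; push_cast; ring
  have hmain := hunr F L κ σ z (ζ ^ (d - 1)) P Pb d b A A' ((w0 : 𝓞 F) * (1 + ζ ^ (d - 1)))
    (p ^ k) D.hκ D.hκ2 hz (by simpa using hb2) hP0 hPb0
    (by rw [← pow_mul, mul_comm, pow_mul, hζd, one_pow]) (by omega)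
    (by
      rw [hb1]
      have : β * (Pb : F) = -((ζ : F) ^ (d - 1) * (P : F)) := by
        rw [hβ, div_mul_cancel₀ _ hPbF]
      have h2 := congrArg (algebraMap F L) this
      simpa using h2)
    (by
      rw [hb1]
      have : (β - 1) * (Pb : F) = (κ : F) ^ 2 * ((w0 : F) * (1 + (ζ : F) ^ (d - 1))) := by
        have h0 : β * (Pb : F) = -((ζ : F) ^ (d - 1) * (P : F)) := by
          rw [hβ, div_mul_cancel₀ _ hPbF]
        rw [sub_mul, h0, hPc, hPbc, hζ1, hqF]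
        field_simp
        ring
      have h2 := congrArg (algebraMap F L) this
      simpa using h2)
    hA hA' hP1 hPb1
    (by
      apply Nat.Coprime.pow_left
      exact (Nat.coprime_primes D.hp D.hκ).mpr D.hpκ)
  exact h94 F L κ σ J D.hκ D.hκ2 hExt hmain

theorem pf_CDA (h94 : T_R94) (hkum : T_KUM) (hunr : T_UNR) (hprd : T_PRD) (hpow : T_POW)
    (hnta : T_NTA) (hntb : T_NTB) : T_CDA := by
  intro r e d p k κ D
  have hd2 := D.hd.two_le
  have hκ2 := D.hκ.two_le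
  have hn0 : d * κ ≠ 0 := by positivity
  have : NeZero (d * κ) := ⟨hn0⟩
  have : NeZero ((d * κ : ℕ) : ℚ) := ⟨by exact_mod_cast hn0⟩
  have : IsCyclotomicExtension {d * κ} ℚ (CyclotomicField (d * κ) ℚ) :=
    CyclotomicField.isCyclotomicExtension (d * κ) ℚ
  have : IsCMField (CyclotomicField (d * κ) ℚ) :=
    IsCyclotomicExtension.Rat.isCMField (CyclotomicField (d * κ) ℚ) (S := {d * κ})
      ⟨d * κ, rfl, by nlinarith [D.hd5]⟩
  exact cda_gen h94 hkum hunr hprd hpow hnta hntb (CyclotomicField (d * κ) ℚ) D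

end

end Pool.Agent.H24.RCN
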