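import Pool.Agent.H24.RCN.Targets

/-!
# MP_4d5ac9_nt, row FRB
-/

set_option autoImplicit false

open NumberField Pool.Agent.H24.RCN

namespace Pool.Agent.H24.RCN

noncomputable section

theorem pf_FRB : T_FRB := by
  intro F _ _ n r _ hn hr hrn
  have : NeZero n := ⟨by omega⟩
  have hcop : Nat.Coprime r n := (Nat.Prime.coprime_iff_not_dvd hr).mpr hrn
  have hζ := IsCyclotomicExtension.zeta_spec n ℚ F
  have hirr := Polynomial.cyclotomic.irreducible_rat (n := n) (by omega)
  have hμ : IsPrimitiveRoot ((IsCyclotomicExtension.zeta n ℚ F) ^ r) n :=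
    hζ.pow_of_coprime r hcop
  set φ : F ≃ₐ[ℚ] F := IsCyclotomicExtension.fromZetaAut hμ hirr with hφ
  have hφζ : φ (IsCyclotomicExtension.zeta n ℚ F) = (IsCyclotomicExtension.zeta n ℚ F) ^ r :=
    IsCyclotomicExtension.fromZetaAut_spec hμ hirr
  set Φ : 𝓞 F ≃+* 𝓞 F := RingOfIntegers.mapRingEquiv φ.toRingEquiv with hΦ
  have hΦζ : Φ hζ.toInteger = hζ.toInteger ^ r := by
    apply RingOfIntegers.ext
    rw [hΦ, RingOfIntegers.mapRingEquiv_apply]
    simpa using hφζ
  refine ⟨Φ, ?_, ?_⟩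
  · intro x hx
    obtain ⟨i, -, hi⟩ := hζ.toInteger_isPrimitiveRoot.eq_pow_of_pow_eq_one hx
    rw [← hi, map_pow, hΦζ, ← pow_mul, ← pow_mul, mul_comm]
  · intro x
    have hx : x ∈ Algebra.adjoin ℤ {hζ.toInteger} := by
      rw [IsCyclotomicExtension.Rat.adjoin_singleton_eq_top hζ]
      trivial
    have hchar : Fact (r.Prime) := ⟨hr⟩
    induction hx using Algebra.adjoin_induction with
    | mem x hx =>
      rw [Set.mem_singleton_iff] at hx
      subst hx
      exact ⟨0, by rw [hΦζ]; ring⟩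
    | algebraMap a =>
      have h1 : (r : ℤ) ∣ a - a ^ r := by
        have h2 : ((a - a ^ r : ℤ) : ZMod r) = 0 := by
          push_cast
          rw [ZMod.pow_card]
          ring
        exact (ZMod.intCast_zmod_eq_zero_iff_dvd _ r).mp h2
      obtain ⟨b, hb⟩ := h1
      refine ⟨algebraMap ℤ (𝓞 F) b, ?_⟩
      have h3 : a = a ^ r + (r : ℤ) * b := by linarith
      have h4 : Φ (algebraMap ℤ (𝓞 F) a) = algebraMap ℤ (𝓞 F) a := by
        simp
      rw [h4]
      conv_lhs => rw [h3]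
      simp
    | add x y _ _ hx hy =>
      obtain ⟨a, ha⟩ := hx
      obtain ⟨b, hb⟩ := hy
      obtain ⟨c, hc⟩ := exists_add_pow_prime_eq hr x y
      refine ⟨a + b - x * y * c, ?_⟩
      rw [map_add, ha, hb, hc]
      ring
    | mul x y _ _ hx hy =>
      obtain ⟨a, ha⟩ := hx
      obtain ⟨b, hb⟩ := hy
      refine ⟨x ^ r * b + a * y ^ r + r * a * b, ?_⟩
      rw [map_mul, ha, hb]
      ring

end

end Pool.Agent.H24.RCN
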