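import Pool.Agent.H24.RCN.Defs

/-!
# MP_4d5ac9_nt, real class numbers: targets
-/

set_option autoImplicit false

open NumberField

namespace Pool.Agent.H24.RCN

noncomputable section

/-! ## A. Modules with an automorphism of prime order -/

def T_HB0 : Prop := ∀ (D : Type) [AddCommGroup D] [Module.Free ℤ D] [Module.Finite ℤ D] (n : ℕ),
  1 ≤ n → Finite (D ⧸ LinearMap.range ((n : ℤ) • (1 : Module.End ℤ D))) ∧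
    Nat.card (D ⧸ LinearMap.range ((n : ℤ) • (1 : Module.End ℤ D))) = n ^ Module.finrank ℤ D

def T_HB1 : Prop := ∀ (D : Type) [AddCommGroup D] [Module.Free ℤ D] [Module.Finite ℤ D]
  (g : Module.End ℤ D) (κ m c : ℕ), κ.Prime → (∀ x, ∃ y, (g ^ m) x = (κ : ℤ) • y) →
  Finite (D ⧸ LinearMap.range g) → Nat.card (D ⧸ LinearMap.range g) ≤ κ ^ c →
  Module.finrank ℤ D ≤ m * c

def T_HB2 : Prop := ∀ (M : Type) [AddCommGroup M] [Module.Free ℤ M] [Module.Finite ℤ M]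
  (f : Module.End ℤ M) (κ : ℕ), κ.Prime → f ^ κ = 1 →
  ∀ x ∈ LinearMap.range (f - 1), ∃ y ∈ LinearMap.range (f - 1),
    ((f - 1) ^ (κ - 1)) x = (κ : ℤ) • y

def T_HRB : Prop := ∀ (M : Type) [AddCommGroup M] [Module.Free ℤ M] [Module.Finite ℤ M]
  (f : Module.End ℤ M) (κ a : ℕ), κ.Prime → f ^ κ = 1 →
  (∀ x : M, ∑ i ∈ Finset.range κ, (f ^ i) x = 0 → ∃ y, f y - y = x) →
  Module.finrank ℤ (LinearMap.ker (f - 1)) ≤ a → Module.finrank ℤ M ≤ κ * a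

/-! ## B. Units -/

def T_RK : Prop := ∀ (F L : Type) [Field F] [NumberField F] [IsCMField F] [Field L]
  [NumberField L] [Algebra F L] (κ : ℕ), Module.finrank F L = κ →
  Units.rank L + 1 = κ * (Units.rank F + 1)

def T_MOD : Prop := ∀ (L : Type) [Field L] [NumberField L], ∃ (M : Type) (_ : AddCommGroup M)
  (_ : Module.Free ℤ M) (_ : Module.Finite ℤ M) (c : (𝓞 L)ˣ → M), UMod L c ∧
  Module.finrank ℤ M = Units.rank L ∧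
  ∀ g : (𝓞 L)ˣ →* (𝓞 L)ˣ, ∃ f : Module.End ℤ M, ∀ u, f (c u) = c (g u)

def T_FIX : Prop := ∀ (F L : Type) [Field F] [NumberField F] [Field L] [NumberField L]
  [Algebra F L] (κ : ℕ) (σ : L ≃ₐ[F] L) (J : L ≃+* L) (M : Type) [AddCommGroup M]
  [Module.Free ℤ M] [Module.Finite ℤ M] (c : (𝓞 L)ˣ → M) (f : Module.End ℤ M), κ.Prime →
  Ext F L κ σ J → UMod L c →
  (∀ u w : (𝓞 L)ˣ, ((w : 𝓞 L) : L) = σ ((u : 𝓞 L) : L) → f (c u) = c w) →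
  Module.finrank ℤ (LinearMap.ker (f - 1)) ≤ Units.rank F

def T_NU : Prop := ∀ (F L : Type) [Field F] [NumberField F] [IsCMField F] [Field L]
  [NumberField L] [Algebra F L] (κ : ℕ) (σ : L ≃ₐ[F] L) (J : L ≃+* L), κ.Prime →
  Ext F L κ σ J → ∃ u : L, Un u ∧ Tor (Algebra.norm F u) ∧
    ∀ v t : L, Un v → Tor t → u ≠ t * (σ v / v)

def T_TOJ : Prop := ∀ (F L : Type) [Field F] [NumberField F] [Field L] [NumberField L]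
  [Algebra F L] (κ : ℕ) (σ : L ≃ₐ[F] L) (J : L ≃+* L), Ext F L κ σ J →
  ∀ x : L, Tor x → J x = x⁻¹

def T_KRN : Prop := ∀ (F L : Type) [Field F] [NumberField F] [Field L] [NumberField L]
  [Algebra F L] (κ : ℕ) (σ : L ≃ₐ[F] L) (J : L ≃+* L), Ext F L κ σ J →
  ∀ u : L, Un u → Tor (J u / u)

def T_NPR : Prop := ∀ (F L : Type) [Field F] [NumberField F] [Field L] [NumberField L]
  [Algebra F L] (κ : ℕ) (σ : L ≃ₐ[F] L) (J : L ≃+* L), κ.Prime → Ext F L κ σ J →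
  (∀ x : L, algebraMap F L (Algebra.norm F x) = ∏ i ∈ Finset.range κ, (σ ^ i) x) ∧
  ∀ x : L, σ x = x → ∃ y : F, algebraMap F L y = x

def T_KAP : Prop := ∀ (F L : Type) [Field F] [NumberField F] [Field L] [NumberField L]
  [Algebra F L] (κ : ℕ) (σ : L ≃ₐ[F] L) (J : L ≃+* L), κ.Prime → Ext F L κ σ J →
  ∀ u : L, Un u → Tor (Algebra.norm F u) → ∃ z t : L, Un z ∧ Tor t ∧ u ^ κ = t * (σ z / z)

def T_EPS : Prop := ∀ (F L : Type) [Field F] [NumberField F] [IsCMField F] [Field L]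
  [NumberField L] [Algebra F L] (κ : ℕ) (σ : L ≃ₐ[F] L) (J : L ≃+* L), κ.Prime → κ ≠ 2 →
  Ext F L κ σ J → ∃ a : L, a ≠ 0 ∧ IsIntegral ℤ a ∧ J a = a ∧ Un (σ a / a) ∧
    ∀ w : L, Un w → σ a / a ≠ σ w / w

/-! ## C. Ideals -/

def T_RM1 : Prop := ∀ (F L : Type) [Field F] [NumberField F] [Field L] [NumberField L]
  [Algebra F L] (κ : ℕ) (σ : L ≃ₐ[F] L) (J : L ≃+* L), κ.Prime → Ext F L κ σ J → Unr F L σ →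
  ∀ Q : Ideal (𝓞 L), Q.IsPrime → Q ≠ ⊥ →
    ¬ Q ^ 2 ∣ Ideal.map (algebraMap (𝓞 F) (𝓞 L)) (Ideal.comap (algebraMap (𝓞 F) (𝓞 L)) Q)

def T_RM2 : Prop := ∀ (F L : Type) [Field F] [NumberField F] [Field L] [NumberField L]
  [Algebra F L] (κ : ℕ) (σ : L ≃ₐ[F] L) (J : L ≃+* L), κ.Prime → Ext F L κ σ J →
  ∀ Q Q' : Ideal (𝓞 L), Q.IsPrime → Q ≠ ⊥ → Q'.IsPrime → Q' ≠ ⊥ →
    Ideal.comap (algebraMap (𝓞 F) (𝓞 L)) Q = Ideal.comap (algebraMap (𝓞 F) (𝓞 L)) Q' →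
    ∃ i : ℕ, ∀ x y : 𝓞 L, (y : L) = (σ ^ i) (x : L) → (x ∈ Q ↔ y ∈ Q')

def T_IDE : Prop := ∀ (F L : Type) [Field F] [NumberField F] [Field L] [NumberField L]
  [Algebra F L] (κ : ℕ) (σ : L ≃ₐ[F] L) (J : L ≃+* L), κ.Prime → Ext F L κ σ J → Unr F L σ →
  ∀ I : Ideal (𝓞 L), I ≠ ⊥ → (∀ x y : 𝓞 L, (y : L) = σ (x : L) → x ∈ I → y ∈ I) →
    ∃ A : Ideal (𝓞 F), Ideal.map (algebraMap (𝓞 F) (𝓞 L)) A = I

def T_MPR : Prop := ∀ (F : Type) [Field F] [NumberField F] [IsCMField F] (A : Ideal (𝓞 F)),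
  (∀ x y : 𝓞 F, (y : F) = IsCMField.complexConj F (x : F) → x ∈ A → y ∈ A) →
  Ideal.map (algebraMap (𝓞 (maximalRealSubfield F)) (𝓞 F))
    (Ideal.relNorm (𝓞 (maximalRealSubfield F)) A) = A ^ 2

def T_CLS : Prop := ∀ (F : Type) [Field F] [NumberField F] [IsCMField F] (κ : ℕ)
  (A : Ideal (𝓞 F)), κ.Prime → κ ≠ 2 → ¬ κ ∣ classNumber (maximalRealSubfield F) → A ≠ ⊥ →
  (∀ x y : 𝓞 F, (y : F) = IsCMField.complexConj F (x : F) → x ∈ A → y ∈ A) →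
  (A ^ κ).IsPrincipal → A.IsPrincipal

def T_R94 : Prop := ∀ (F L : Type) [Field F] [NumberField F] [IsCMField F] [Field L]
  [NumberField L] [Algebra F L] (κ : ℕ) (σ : L ≃ₐ[F] L) (J : L ≃+* L), κ.Prime → κ ≠ 2 →
  Ext F L κ σ J → Unr F L σ → κ ∣ classNumber (maximalRealSubfield F)

/-! ## D. Kummer extensions -/

def T_KUM : Prop := ∀ (F : Type) [Field F] [NumberField F] [IsCMField F] (κ : ℕ) (z β : F),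
  κ.Prime → IsPrimitiveRoot z κ → β * IsCMField.complexConj F β = 1 → (∀ x : F, x ^ κ ≠ β) →
  ∃ (L : Type) (_ : Field L) (_ : NumberField L) (_ : Algebra F L) (σ : L ≃ₐ[F] L)
    (J : L ≃+* L) (b : L), Ext F L κ σ J ∧ b ^ κ = algebraMap F L β ∧ σ b = algebraMap F L z * b

def T_EZ : Prop := ∀ (F : Type) [Field F] [NumberField F] (κ : ℕ) (z : 𝓞 F), κ.Prime →
  κ ≠ 2 → IsPrimitiveRoot z κ → ∃ e : 𝓞 F, (κ : 𝓞 F) = e * (z - 1) ^ (κ - 1)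

def T_INT : Prop := ∀ (F L : Type) [Field F] [NumberField F] [Field L] [NumberField L]
  [Algebra F L] (κ : ℕ) (z c w : 𝓞 F) (b : L), κ.Prime → κ ≠ 2 → IsPrimitiveRoot z κ →
  (b ^ κ - 1) * algebraMap F L c = (κ : L) ^ 2 * algebraMap F L w →
  IsIntegral ℤ (algebraMap F L c * ((b - 1) / (algebraMap F L z - 1)))

def T_UNA : Prop := ∀ (F L : Type) [Field F] [NumberField F] [Field L] [NumberField L]
  [Algebra F L] (κ : ℕ) (σ : L ≃ₐ[F] L) (z : 𝓞 F) (B : 𝓞 L) (A : Ideal (𝓞 F)), κ.Prime →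
  IsPrimitiveRoot z κ → B ≠ 0 → σ (B : L) = algebraMap F L z * B →
  Ideal.span {B} = Ideal.map (algebraMap (𝓞 F) (𝓞 L)) A →
  ∀ Q : Ideal (𝓞 L), Q.IsPrime → (κ : 𝓞 L) ∉ Q → ∃ x y : 𝓞 L, (y : L) = σ (x : L) - x ∧ y ∉ Q

def T_UNR : Prop := ∀ (F L : Type) [Field F] [NumberField F] [Field L] [NumberField L]
  [Algebra F L] (κ : ℕ) (σ : L ≃ₐ[F] L) (z ζ P Pb : 𝓞 F) (n : ℕ) (b : L) (A A' : Ideal (𝓞 F))
  (w : 𝓞 F) (N : ℕ), κ.Prime → κ ≠ 2 → IsPrimitiveRoot z κ → σ b = algebraMap F L z * b →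
  P ≠ 0 → Pb ≠ 0 → ζ ^ n = 1 → 1 ≤ n →
  b ^ κ * algebraMap F L Pb = - (algebraMap F L ζ * algebraMap F L P) →
  (b ^ κ - 1) * algebraMap F L Pb = (κ : L) ^ 2 * algebraMap F L w →
  Ideal.span {P} = A ^ κ → Ideal.span {Pb} = A' ^ κ →
  P ∣ (N : 𝓞 F) → Pb ∣ (N : 𝓞 F) → Nat.Coprime N κ → Unr F L σ

/-! ## E. Cyclotomic fields -/

def T_FRB : Prop := ∀ (F : Type) [Field F] [NumberField F] (n r : ℕ)
  [IsCyclotomicExtension {n} ℚ F], 1 ≤ n → r.Prime → ¬ r ∣ n → ∃ Φ : 𝓞 F ≃+* 𝓞 F,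
  (∀ x : 𝓞 F, x ^ n = 1 → Φ x = x ^ r) ∧ ∀ x : 𝓞 F, ∃ y : 𝓞 F, Φ x = x ^ r + (r : 𝓞 F) * y

def T_FRQ : Prop := ∀ (R : Type) [CommRing R] (r e κ : ℕ) (X Y : R), r.Prime → 1 ≤ e →
  κ.Prime → κ ∣ r - 1 → (((r ^ e : ℕ) : R)) ∣ X ^ κ - 1 → (((r ^ e : ℕ) : R)) ∣ Y ^ κ - 1 →
  (r : R) ∣ Y - X ^ r → ((r ^ e : ℕ) : R) ∣ Y - X

def T_PRD : Prop := ∀ (R : Type) [CommRing R] [IsDomain R] (d q : ℕ) (ζ : R), d.Prime →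
  IsPrimitiveRoot ζ d →
  ∏ i ∈ Finset.range (d - 1), (1 - ζ ^ (i + 1) * (q : R)) = ∑ i ∈ Finset.range d, (q : R) ^ i

def T_COP : Prop := ∀ (R : Type) [CommRing R] [IsDomain R] (r e d p k κ : ℕ) (ζ : R),
  Dat r e d p k κ → IsPrimitiveRoot ζ d → ∀ i j : ℕ, 1 ≤ i → i < d → 1 ≤ j → j < d → i ≠ j →
  IsCoprime (1 - ζ ^ i * ((r ^ e : ℕ) : R)) (1 - ζ ^ j * ((r ^ e : ℕ) : R))

def T_POW : Prop := ∀ (R : Type) [CommRing R] [IsDedekindDomain R] [CharZero R]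
  (r e d p k κ : ℕ) (ζ : R),
  Dat r e d p k κ → IsPrimitiveRoot ζ d → ∀ i : ℕ, 1 ≤ i → i < d →
  ∃ A : Ideal R, Ideal.span {1 - ζ ^ i * ((r ^ e : ℕ) : R)} = A ^ κ

def T_NOR : Prop := ∀ (F : Type) [Field F] [NumberField F] (r e d p k κ : ℕ)
  [IsCyclotomicExtension {d * κ} ℚ F] (ζ : 𝓞 F), Dat r e d p k κ → IsPrimitiveRoot ζ d →
  ∀ i : ℕ, 1 ≤ i → i < d →
  Ideal.absNorm (Ideal.span {1 - ζ ^ i * ((r ^ e : ℕ) : 𝓞 F)}) = p ^ (k * (κ - 1))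

def T_SIZ : Prop := ∀ (F : Type) [Field F] [NumberField F] (Φ : 𝓞 F ≃+* 𝓞 F)
  (P Pb A : 𝓞 F) (κ : ℕ), 1 ≤ κ → Pb ≠ 0 → A ^ κ = P * Pb ^ (κ - 1) →
  (∀ τ : F →+* ℂ, ‖τ P‖ = ‖τ Pb‖) →
  Ideal.absNorm (Ideal.span {Φ A * Pb - A * Φ Pb}) ≤
    2 ^ Module.finrank ℚ F * Ideal.absNorm (Ideal.span {Pb}) ^ 2

def T_NUM : Prop := ∀ d κ q : ℕ, 5 ≤ d → 3 ≤ κ → κ ^ 2 < q →
  2 ^ ((d - 1) * κ) * (∑ i ∈ Finset.range d, q ^ i) ^ 2 < q ^ ((d - 1) * κ)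

def T_NT1 : Prop := ∀ (F : Type) [Field F] [NumberField F] (r e d p k κ : ℕ)
  [IsCyclotomicExtension {d * κ} ℚ F] (ζ : 𝓞 F), Dat r e d p k κ → IsPrimitiveRoot ζ d →
  ∀ A : 𝓞 F, A ^ κ = (1 - ζ * ((r ^ e : ℕ) : 𝓞 F)) *
    (1 - ζ ^ (d - 1) * ((r ^ e : ℕ) : 𝓞 F)) ^ (κ - 1) →
  ∃ (Φ : 𝓞 F ≃+* 𝓞 F) (I I' : Ideal (𝓞 F)), Ideal.absNorm I' = Ideal.absNorm I ∧
    I ^ κ = Ideal.span {1 - ζ ^ (d - 1) * ((r ^ e : ℕ) : 𝓞 F)} ∧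
    Φ A * (1 - ζ ^ (d - 1) * ((r ^ e : ℕ) : 𝓞 F)) -
      A * Φ (1 - ζ ^ (d - 1) * ((r ^ e : ℕ) : 𝓞 F)) ≠ 0 ∧
    Ideal.span {((r ^ e : ℕ) : 𝓞 F)} * (I ^ (κ - 1) * I' ^ (κ - 1)) ∣
      Ideal.span {Φ A * (1 - ζ ^ (d - 1) * ((r ^ e : ℕ) : 𝓞 F)) -
        A * Φ (1 - ζ ^ (d - 1) * ((r ^ e : ℕ) : 𝓞 F))}

def T_NTB : Prop := ∀ (F : Type) [Field F] [NumberField F] (r e d p k κ : ℕ)
  [IsCyclotomicExtension {d * κ} ℚ F] (ζ : 𝓞 F), Dat r e d p k κ → IsPrimitiveRoot ζ d →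
  ∀ A : 𝓞 F, A ^ κ ≠ (1 - ζ * ((r ^ e : ℕ) : 𝓞 F)) *
    (1 - ζ ^ (d - 1) * ((r ^ e : ℕ) : 𝓞 F)) ^ (κ - 1)

def T_NTA : Prop := ∀ (F : Type) [Field F] [NumberField F] (r e d p k κ : ℕ)
  (ζ : 𝓞 F), Dat r e d p k κ → IsPrimitiveRoot ζ d → ∀ x : F,
  x ^ κ * (1 - (ζ : F) ^ (d - 1) * ((r ^ e : ℕ) : F)) =
    - ((ζ : F) ^ (d - 1) * (1 - (ζ : F) * ((r ^ e : ℕ) : F))) →
  ∃ A : 𝓞 F, A ^ κ = (1 - ζ * ((r ^ e : ℕ) : 𝓞 F)) *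
    (1 - ζ ^ (d - 1) * ((r ^ e : ℕ) : 𝓞 F)) ^ (κ - 1)

def T_CDA : Prop := ∀ (r e d p k κ : ℕ), Dat r e d p k κ →
  κ ∣ classNumber (maximalRealSubfield (CyclotomicField (d * κ) ℚ))

def T_DAT : Prop := ∀ {r e d p k κ : ℕ}, r.Prime → 1 ≤ e → p.Prime → 4 ≤ d → 1 < k → Odd k →
  k ∣ r - 1 → ((r ^ e) ^ d - 1) / (r ^ e - 1) = p ^ k → κ.Prime → κ ∣ k → ¬ κ ∣ d - 1 →
  Dat r e d p k κ

end

end Pool.Agent.H24.RCN
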