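import Pool.Agent.H1.RCN.HB0
import Pool.Agent.H1.RCN.HB1
import Pool.Agent.H1.RCN.RM2
import Pool.Agent.H10.RCN.KUM
import Pool.Agent.H10.RCN.R94
import Pool.Agent.H11.RCN.RK
import Pool.Agent.H12.RCN.EPS
import Pool.Agent.H17.RCN.CLS
import Pool.Agent.H24.RCN.CDA
import Pool.Agent.H24.RCN.FRB
import Pool.Agent.H35.RCN.IDE
import Pool.Agent.H38.RCN.KRN
import Pool.Agent.H38.RCN.NUM
import Pool.Agent.H38.RCN.POW
import Pool.Agent.H39.RCN.SIZ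
import Pool.Agent.H39.RCN.UNR
import Pool.Agent.H41.RCN.NOR
import Pool.Agent.H41.RCN.NPR
import Pool.Agent.H46.RCN.NU
import Pool.Agent.H49.RCN.EZ
import Pool.Agent.H49.RCN.INT
import Pool.Agent.H49.RCN.PRD
import Pool.Agent.H51.RCN.UNA
import Pool.Agent.H52.RCN.FRQ
import Pool.Agent.H52.RCN.KAP
import Pool.Agent.H60.RCN.HB2
import Pool.Agent.H60.RCN.MPR
import Pool.Agent.H61.RCN.FIX
import Pool.Agent.H68.RCN.MOD
import Pool.Agent.H69.RCN.COP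
import Pool.Agent.H69.RCN.DAT
import Pool.Agent.H73.RCN.NT1
import Pool.Agent.H80.RCN.TOJ
import Pool.Agent.H89.RCN.NTB
import Pool.Agent.H97.RCN.NTA

/-!
# MP_4d5ac9_nt, real class numbers: assembly
-/

set_option autoImplicit false

open NumberField

namespace Pool.Agent.H24.RCN

/-- `κ` divides the real class number of the `dκ`-th cyclotomic field. -/
theorem realClass (hrb : T_HRB) (hrm1 : T_RM1) {r e d p k κ : ℕ} (hr : r.Prime) (he : 1 ≤ e)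
    (hp : p.Prime) (hd : 4 ≤ d) (hk : 1 < k) (hodd : Odd k) (hkr : k ∣ r - 1)
    (h : ((r ^ e) ^ d - 1) / (r ^ e - 1) = p ^ k) (hκ : κ.Prime) (hκk : κ ∣ k)
    (hκd : ¬ κ ∣ d - 1) :
    κ ∣ classNumber (maximalRealSubfield (CyclotomicField (d * κ) ℚ)) := by
  have hprd := H49.RCN.pf_PRD
  have hcop := H69.RCN.pf_COP hprd
  have hpow := H38.RCN.pf_POW hprd hcop
  have hnor := H41.RCN.pf_NOR hprd
  have hnt1 := H73.RCN.pf_NT1 pf_FRB H52.RCN.pf_FRQ hcop hpow hnor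
  have hntb := H89.RCN.pf_NTB hnt1 hnor H39.RCN.pf_SIZ H38.RCN.pf_NUM
  have hez := H49.RCN.pf_EZ
  have hunr := H39.RCN.pf_UNR (H51.RCN.pf_UNA hez) (H49.RCN.pf_INT hez) hez
  have hnpr := H41.RCN.pf_NPR
  have hnu := H46.RCN.pf_NU H11.RCN.pf_RK H68.RCN.pf_MOD H61.RCN.pf_FIX hnpr hrb
  have heps := H12.RCN.pf_EPS hnu H80.RCN.pf_TOJ H38.RCN.pf_KRN hnpr (H52.RCN.pf_KAP hnpr)
  have hide := H35.RCN.pf_IDE hrm1 H1.RCN.pf_RM2
  have h94 := H10.RCN.pf_R94 heps hide (H17.RCN.pf_CLS H60.RCN.pf_MPR) hnpr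
  exact pf_CDA h94 H10.RCN.pf_KUM hunr hprd hpow H97.RCN.pf_NTA hntb r e d p k κ
    (H69.RCN.pf_DAT hr he hp hd hk hodd hkr h hκ hκk hκd)

end Pool.Agent.H24.RCN
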