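import Mathlib

/-!
# MP_4d5ac9_nt, real class numbers: definitions

`F` is a CM field, `L/F` is cyclic of prime degree `κ`, and complex conjugation acts on `L`. If
`L/F` is unramified then `κ` divides the class number of the maximal real subfield of `F`.
-/

set_option autoImplicit false

open NumberField

namespace Pool.Agent.H24.RCN

noncomputable section

/-- the units of the ring of integers, as elements of the field -/
def Un {L : Type} [Field L] (x : L) : Prop := x ≠ 0 ∧ IsIntegral ℤ x ∧ IsIntegral ℤ x⁻¹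

/-- the roots of unity -/
def Tor {L : Type} [Field L] (x : L) : Prop := ∃ n : ℕ, 0 < n ∧ x ^ n = 1

/-- `L/F` is cyclic of degree `κ` with the generator `σ`, and `J` is complex conjugation on `L`. -/
structure Ext (F L : Type) [Field F] [NumberField F] [Field L] [NumberField L] [Algebra F L]
    (κ : ℕ) (σ : L ≃ₐ[F] L) (J : L ≃+* L) : Prop where
  gal : IsGalois F L
  deg : Module.finrank F L = κ
  gen : ∀ τ : L ≃ₐ[F] L, τ ∈ Subgroup.zpowers σ
  comm : ∀ x, J (σ x) = σ (J x)
  conj : ∀ (τ : L →+* ℂ) (x : L), τ (J x) = (starRingEnd ℂ) (τ x)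

/-- no prime ideal of the ring of integers of `L` is ramified: `σ` is not in the inertia group. -/
def Unr (F L : Type) [Field F] [NumberField F] [Field L] [NumberField L] [Algebra F L]
    (σ : L ≃ₐ[F] L) : Prop :=
  ∀ Q : Ideal (𝓞 L), Q.IsPrime → ∃ x y : 𝓞 L, (y : L) = σ (x : L) - x ∧ y ∉ Q

/-- `c` is the quotient map from the units of the ring of integers to the units modulo the roots of
unity, written additively -/
structure UMod (L : Type) [Field L] [NumberField L] {M : Type} [AddCommGroup M]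
    (c : (𝓞 L)ˣ → M) : Prop where
  surj : Function.Surjective c
  mul : ∀ u v, c (u * v) = c u + c v
  zero : ∀ u, c u = 0 ↔ Tor ((u : 𝓞 L) : L)

/-- the numbers of a solution of `(q ^ d - 1) / (q - 1) = p ^ k`, `q = r ^ e` -/
structure Dat (r e d p k κ : ℕ) : Prop where
  hr : r.Prime
  he : 1 ≤ e
  hp : p.Prime
  hd : d.Prime
  hd5 : 5 ≤ d
  hκ : κ.Prime
  hκ2 : κ ≠ 2
  hκk : κ ∣ k
  hk : 1 ≤ k
  hκr : κ ∣ r - 1
  hκq : κ ^ 2 ∣ r ^ e - 1
  eq : ∑ i ∈ Finset.range d, (r ^ e) ^ i = p ^ k
  hκd : κ ≠ d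
  hpκ : p ≠ κ
  hpd : p ≠ d
  hrd : r ≠ d
  hd1 : ¬ d ∣ r - 1

end

end Pool.Agent.H24.RCN
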