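import Pool.Agent.H24.RCN.All
import Pool.Agent.H7.RCN.HRB
import Pool.Agent.H36.RCN.RM1
import Pool.Agent.H24.RCM.MTT
import Pool.Agent.H20.RCM.CNT
import Pool.Agent.H80.RCM.HEV
import Pool.Agent.H61.RCM.HOD
import Pool.Agent.H79.RCM.NMM
import Pool.Agent.H1.RCM.PVS
import Pool.Agent.H38.RCM.PVU
import Pool.Agent.H41.RCM.IVS
import Pool.Agent.H1.RCM.PRV
import Pool.Agent.H10.RCM.INO
import Pool.Agent.H38.RCM.INE
import Pool.Agent.H25.NW.Uni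

/-!
# MP_4d5ac9_nt, real class numbers and many classes: the theorem
-/

set_option autoImplicit false

open NumberField

namespace Pool.Agent.H24.RCN

/-- The many classes statement. -/
theorem manyClasses : RCM.T_MTT := by
  have hu := H38.RCM.pf_PVU
  have hs := H1.RCM.pf_PVS
  have hi := H41.RCM.pf_IVS
  have hp := H1.RCM.pf_PRV hs hi
  exact RCM.pf_MTT (H10.RCM.pf_INO hu hs hi hp) (H38.RCM.pf_INE hu hs hi hp) H80.RCM.pf_HEV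
    H61.RCM.pf_HOD H20.RCM.pf_CNT H79.RCM.pf_NMM

/-- The theorem. -/
theorem realClassTorsion {r e d p k : ℕ} (hr : r.Prime) (he : 1 ≤ e) (hp : p.Prime) (hd : 4 ≤ d)
    (hk : 1 < k) (h : ((r ^ e) ^ d - 1) / (r ^ e - 1) = p ^ k) :
    (∀ κ : ℕ, Odd k → k ∣ r - 1 → κ.Prime → κ ∣ k → ¬ κ ∣ d - 1 →
      κ ∣ classNumber (maximalRealSubfield (CyclotomicField (d * κ) ℚ))) ∧
    (∀ κ : ℕ, κ.Prime → κ ≠ 2 → κ ∣ k → κ ∣ r - 1 → 33 ≤ r ^ e →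
      d ≤ Nat.card {c : ClassGroup (𝓞 (CyclotomicField d ℚ)) // c ^ κ = 1} ∨
      (κ = 3 ∧ r ≠ d ∧ (∀ j : ℕ, ¬ d ∣ r ^ j + 1) ∧
        3 ≤ Nat.card {c : ClassGroup (𝓞 (CyclotomicField d ℚ)) // c ^ κ = 1})) ∧
    (∀ m s : ℕ, Odd m → m ∣ k → m ∣ r - 1 → 33 ≤ r ^ e → 5 * s ≤ m →
      ((d - 1) / 3 + s).choose s ≤
        Nat.card {c : ClassGroup (𝓞 (CyclotomicField d ℚ)) // c ^ m = 1}) := by
  refine ⟨fun κ hodd hkr hκ hκk hκd => ?_, fun κ hκ hκ2 hκk hκr hq => ?_,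
    fun m s hm hmk hmr hq hs => ?_⟩
  · exact realClass (H7.RCN.pf_HRB H1.RCN.pf_HB0 (H1.RCN.pf_HB1 H1.RCN.pf_HB0) H60.RCN.pf_HB2)
      H36.RCN.pf_RM1 hr he hp hd hk hodd hkr h hκ hκk hκd
  · exact Pool.Agent.H25.NW.classTorsion hr he hp hd hk hκ hκ2 hκk hκr hq h
  · exact manyClasses r e d p k m s hr he hp hd hk hm hmk hmr hq h hs

end Pool.Agent.H24.RCN
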